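import Pool.Agent.Helper60.PlzA.Goals

/-!
# Project PLA (MP_8e7d5e_co), packet PSTAT: few bad pairs

Assembly of part 3: an optimal partition exists since there are finitely many maps; EXSUM bounds
the sum of its excesses, PK1 gives a small set `X` that sees a dense set of bad pairs, and PK2
excludes it. The hypotheses S_EXCH and S_EXPOS are not needed.
-/

set_option autoImplicit false

namespace Pool.Agent.Helper27.PlzA

open Finset Pool.Agent.Helper93.Plz Pool.Agent.Helper60.PlzA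

open scoped Classical

/-- An optimal partition exists. -/
theorem exists_opt {V : Type} [Fintype V] {M : ℕ} (G : SimpleGraph V) (hM : 1 ≤ M) :
    ∃ σ : V → Fin M, Opt G σ := by
  have : Nonempty (V → Fin M) := ⟨fun _ => ⟨0, hM⟩⟩
  obtain ⟨σ, _, hσ⟩ := Finset.exists_min_image (univ : Finset (V → Fin M)) (fun σ => En G σ)
    Finset.univ_nonempty
  exact ⟨σ, fun σ' => hσ σ' (mem_univ σ')⟩

theorem pstat (h3 : S_EXSUM) (h4 : S_PK1) (h5 : S_PK2) : S_PSTAT := by
  intro γ hγ hγ1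
  refine ⟨γ ^ 3 / 57600, by positivity, ⌈16 / γ⌉₊, ?_, ?_⟩
  · exact Nat.one_le_ceil_iff.mpr (by positivity)
  intro s hs
  have hs16 : 16 / γ ≤ (s : ℝ) := Nat.ceil_le.mp hs
  have hγs : 16 ≤ γ * s := by
    have := (div_le_iff₀ hγ).mp hs16
    linarith
  have hs1 : 1 ≤ s := by
    rcases Nat.eq_zero_or_pos s with h | h
    · subst h; simp at hγs; linarith
    · exact h
  set r : ℕ := ⌊γ * s / 8⌋₊ with hr
  have hr1 : (r : ℝ) ≤ γ * s / 8 := Nat.floor_le (by positivity)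
  have hr2 : γ * s / 8 < (r : ℝ) + 1 := Nat.lt_floor_add_one _
  have hr3 : 1 ≤ r := Nat.le_floor (by push_cast; linarith)
  obtain ⟨M₁, hM₁⟩ := h5 γ (γ / 100) s r hγ hγ1 (by positivity) (by linarith) hs1 hr3
    (by nlinarith)
  refine ⟨max M₁ ⌈16 / γ ^ 2⌉₊, ?_⟩
  intro M hM V _ G hdeg hHS
  have hM1 : M₁ ≤ M := le_trans (le_max_left _ _) hM
  have hM2 : 16 / γ ^ 2 ≤ (M : ℝ) := Nat.ceil_le.mp (le_trans (le_max_right _ _) hM)
  have hMpos : 0 < (M : ℝ) := lt_of_lt_of_le (by positivity) hM2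
  have hMone : 1 ≤ M := by exact_mod_cast hMpos
  by_contra hcon
  have hlt := not_le.mp hcon
  obtain ⟨σ, hσ⟩ := exists_opt G hMone
  have hsum := h3 V _ G M s (γ ^ 3 / 57600) σ hMone hs1 (by positivity) hHS
  have hcond : 2 / (M : ℝ) + 12 * (6 * (γ ^ 3 / 57600)) / (γ / 100) ≤ γ ^ 2 / 4 := by
    have e1 : 12 * (6 * (γ ^ 3 / 57600)) / (γ / 100) = γ ^ 2 / 8 := by
      field_simp
      norm_num
    have e2 : 2 / (M : ℝ) ≤ γ ^ 2 / 8 := by
      rw [div_le_iff₀ hMpos]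
      have := (div_le_iff₀ (by positivity : (0 : ℝ) < γ ^ 2)).mp hM2
      linarith
    rw [e1]; linarith
  obtain ⟨i, X, hX1, hX2, hX3, hX4⟩ := h4 γ (γ / 100) (6 * (γ ^ 3 / 57600)) s r M hγ hγ1
    (by positivity) (by linarith) (by positivity) hs1 hr3 (by linarith) hMone hcond V _ G σ hσ
    hdeg hsum hlt
  exact hM₁ M hM1 V _ G σ hσ hdeg i X hX1 hX2 hX3 hX4

end Pool.Agent.Helper27.PlzA
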